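import Pool.Agent.Helper134.ChainPath
import Pool.Agent.Helper134.ChainSanity

/-!
# No bound in terms of `n` alone for the number of angle-linear moves

For every `N` there is an open planar chain with only five links, and a simple configuration of
it, from which every straightening motion that is piecewise linear in angle space needs more than
`N` moves.  The link lengths are `1 - m, 1, 1 + m, 1 + m, 1 - m` with `m = 1 / (10^10 (N+1)^4)`.

Proof idea.  Put joint 1 at the origin and joint 0 on the positive real axis.  The last two links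
are caught in a thin trap, whose defining inequalities (positivity of the function `F`) cannot be
left as long as the angle `a` at joint 1 is at most 1, since equality in any of them puts a joint
on a non-adjacent link.  In the trap the directions satisfy, up to `220 m`, the equation
`x cos a - sin a + y = 0`, with `x`, `y` the rescaled (by `m`) remaining degrees of freedom.
Along one move `a, x, y` are affine in time and this equation can only hold, up to the error, on
an interval where `a` increases by `O(m^(1/4))`.  But straightening must increase `a` from `1/2`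
to `π`, so at least a constant times `m^(-1/4)` moves are needed.
-/

set_option autoImplicit false

namespace Pool.Agent.Results.MP_7e0f10_lc.NoPolyBound

open Real CH134

/-- Sanity check: a straight simple configuration is straightened by zero moves. -/
theorem straight_zero (n : ℕ) (l : ℕ → ℝ) (q : ℕ → ℂ) (h : HasLengths n l q) (hs : Simple n q)
    (hst : Straight n q) : StraightenedBy n l q 0 := by
  refine ⟨0, fun _ => q, le_rfl, ⟨fun i _ => continuousOn_const, fun t _ => ⟨h, hs⟩⟩,
    fun i _ => rfl, ⟨fun _ => 0, rfl, rfl, ?_, ?_⟩, hst⟩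
  · intro j hj; omega
  · intro j hj; omega

/-- Sanity check: from every simple configuration a two-link chain is straightened by one move. -/
theorem two_links_one_move (l : ℕ → ℝ) (q : ℕ → ℂ) (hl : ∀ i < 2, 0 < l i)
    (h : HasLengths 2 l q) (hs : Simple 2 q) : StraightenedBy 2 l q 1 :=
  two_links l q hl h hs

theorem five_links (N : ℕ) : ∃ (l : ℕ → ℝ) (q : ℕ → ℂ), (∀ i < 5, 0 < l i) ∧ HasLengths 5 l q ∧
    Simple 5 q ∧ ∀ k : ℕ, StraightenedBy 5 l q k → N < k := by
  have hN : (1 : ℝ) ≤ (N : ℝ) + 1 := by
    have : (0 : ℝ) ≤ (N : ℝ) := Nat.cast_nonneg N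
    linarith
  have hN4 : (1 : ℝ) ≤ ((N : ℝ) + 1) ^ 4 := one_le_pow₀ hN
  obtain ⟨m, hmdef⟩ : ∃ m : ℝ, m = 1 / (10 ^ 10 * ((N : ℝ) + 1) ^ 4) := ⟨_, rfl⟩
  have hm : 0 < m := by rw [hmdef]; positivity
  have hm' : m ≤ 1 / 1000 := by
    rw [hmdef]
    apply one_div_le_one_div_of_le (by norm_num)
    nlinarith
  have hbig : 13200 * m < (1 / (4 * ((N : ℝ) + 1)) / 4) ^ 4 := by
    have e1 : (1 / (4 * ((N : ℝ) + 1)) / 4) ^ 4 = 1 / (65536 * ((N : ℝ) + 1) ^ 4) := by
      have : (N : ℝ) + 1 ≠ 0 := by positivity
      field_simp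
      norm_num
    have e2 : 13200 * m = 1 / (10 ^ 10 / 13200 * ((N : ℝ) + 1) ^ 4) := by
      rw [hmdef]
      have : (N : ℝ) + 1 ≠ 0 := by positivity
      field_simp
    rw [e1, e2]
    apply one_div_lt_one_div_of_lt (by positivity)
    apply mul_lt_mul_of_pos_right (by norm_num) (by positivity)
  obtain ⟨q, a, c, b, e, h1, h2, h3, h4, h5⟩ := init_exists m hm hm'
  refine ⟨lm m, q, ?_, h1, h2, fun k hk => moves_gt N m hm hm' hbig q a c b e h3 h4 h5 k hk⟩
  intro i hi
  interval_cases i <;> simp [lm] <;> linarith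

/-- The answer to Q1 is negative.  First part: for every `N` there is an open planar chain with
five links and a simple configuration of it from which every straightening motion that is
piecewise linear in angle space uses more than `N` moves.  Second part: the negated form of the
question, for every polynomial. -/
theorem result :
    (∀ N : ℕ, ∃ (l : ℕ → ℝ) (q : ℕ → ℂ), (∀ i < 5, 0 < l i) ∧ HasLengths 5 l q ∧
      Simple 5 q ∧ ∀ k : ℕ, StraightenedBy 5 l q k → N < k) ∧
    (∀ P : Polynomial ℝ, ∃ (n : ℕ) (l : ℕ → ℝ) (q : ℕ → ℂ), (∀ i < n, 0 < l i) ∧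
      HasLengths n l q ∧ Simple n q ∧
      ∀ k : ℕ, StraightenedBy n l q k → P.eval (n : ℝ) < (k : ℝ)) := by
  refine ⟨five_links, fun P => ?_⟩
  obtain ⟨l, q, h1, h2, h3, h4⟩ := five_links ⌈P.eval ((5 : ℕ) : ℝ)⌉₊
  refine ⟨5, l, q, h1, h2, h3, fun k hk => ?_⟩
  have h5 := h4 k hk
  have h6 : P.eval ((5 : ℕ) : ℝ) ≤ (⌈P.eval ((5 : ℕ) : ℝ)⌉₊ : ℝ) := Nat.le_ceil _
  have h7 : ((⌈P.eval ((5 : ℕ) : ℝ)⌉₊ : ℕ) : ℝ) < (k : ℝ) := by exact_mod_cast h5
  exact lt_of_le_of_lt h6 h7

end Pool.Agent.Results.MP_7e0f10_lc.NoPolyBound
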